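import Mathlib
import Pool.Agent.Lib.MP_356f68_co.Cube.Class

/-! With a spectral gap every vertex is robustly joined to most vertices. -/

set_option autoImplicit false
set_option linter.unusedSectionVars false

namespace Pool.Agent.Lib.MP_356f68_co.Cube

open Finset

namespace Ker

variable {V P C : Type} [Fintype V] [DecidableEq V] [Fintype P] [DecidableEq C] (κ : Ker V P)

/-- contraction on functions of sum zero -/
def Contr (ρ : ℝ) : Prop :=
  ∀ f : V → ℝ, ∑ v, f v = 0 → ∑ u, (∑ v, κ.K u v * f v) ^ 2 ≤ ρ * ∑ v, f v ^ 2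

lemma l2_mix [Nonempty V] {ρ : ℝ} (h0 : 0 ≤ ρ) (h : κ.Contr ρ) (t : ℕ) (u : V) :
    ∑ w, (κ.k t u w - 1 / (Fintype.card V : ℝ)) ^ 2 ≤ ρ ^ t := by
  have hN : (0 : ℝ) < Fintype.card V := by exact_mod_cast Fintype.card_pos
  induction t with
  | zero =>
    have e : ∀ w, (κ.k 0 u w - 1 / (Fintype.card V : ℝ)) ^ 2
        = κ.k 0 u w * (1 - 2 / (Fintype.card V : ℝ)) + 1 / (Fintype.card V : ℝ) ^ 2 := by
      intro w
      rw [k_zero]
      split_ifs <;> ring
    simp only [e, sum_add_distrib, ← sum_mul, k_sum, sum_const, card_univ, nsmul_eq_mul, pow_zero]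
    have : (Fintype.card V : ℝ) * (1 / (Fintype.card V : ℝ) ^ 2) = 1 / Fintype.card V := by
      field_simp
    rw [this]
    have : 2 / (Fintype.card V : ℝ) = 2 * (1 / Fintype.card V) := by ring
    have h2 : 0 ≤ 1 / (Fintype.card V : ℝ) := by positivity
    linarith
  | succ t ih =>
    have h1 := h (fun v => κ.k t u v - 1 / (Fintype.card V : ℝ)) (by
      simp only [sum_sub_distrib, k_sum, sum_const, card_univ, nsmul_eq_mul]
      field_simp
      ring)
    have e : ∀ w, ∑ v, κ.K w v * (κ.k t u v - 1 / (Fintype.card V : ℝ))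
        = κ.k (t + 1) u w - 1 / (Fintype.card V : ℝ) := by
      intro w
      simp only [mul_sub, sum_sub_distrib, ← sum_mul, K_sum, one_mul]
      rw [κ.k_symm (t + 1) u w, k_succ]
      congr 1
      exact sum_congr rfl fun v _ => by rw [κ.k_symm t u v]
    simp only [e] at h1
    rw [pow_succ']
    exact h1.trans (mul_le_mul_of_nonneg_left ih h0)

lemma l1_mix [Nonempty V] {ρ : ℝ} (h0 : 0 ≤ ρ) (h : κ.Contr ρ) {t : ℕ}
    (ht : Fintype.card V * ρ ^ t ≤ 1 / 400) (u : V) :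
    ∑ w, |κ.k t u w - 1 / (Fintype.card V : ℝ)| ≤ 1 / 20 := by
  have h1 := sq_sum_le_card_mul_sum_sq (s := (univ : Finset V))
    (f := fun w => |κ.k t u w - 1 / (Fintype.card V : ℝ)|)
  simp only [sq_abs, card_univ] at h1
  have h2 := mul_le_mul_of_nonneg_left (κ.l2_mix h0 h t u)
    (Nat.cast_nonneg (α := ℝ) (Fintype.card V))
  refine abs_le_of_sq_le_sq' (by linarith) (by norm_num) |>.2

lemma tv_small [Nonempty V] {ρ : ℝ} (h0 : 0 ≤ ρ) (h1 : ρ ≤ 1) (h : κ.Contr ρ) {a0 t : ℕ}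
    (ha : Fintype.card V * ρ ^ a0 ≤ 1 / 400) (ht : a0 ≤ t) (u v : V) : κ.tv t u v ≤ 1 / 10 := by
  have g : ∀ s, a0 ≤ s → Fintype.card V * ρ ^ s ≤ 1 / 400 := fun s hs =>
    le_trans (mul_le_mul_of_nonneg_left (pow_le_pow_of_le_one h0 h1 hs) (Nat.cast_nonneg _)) ha
  have g1 := κ.l1_mix h0 h (g t ht) v
  have g2 := κ.l1_mix h0 h (g (t + 1) (by omega)) u
  have g3 : κ.tv t u v ≤ ∑ w, (|κ.k t v w - 1 / (Fintype.card V : ℝ)|
      + |κ.k (t + 1) u w - 1 / (Fintype.card V : ℝ)|) := by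
    refine sum_le_sum fun w _ => max_le ?_ (by positivity)
    linarith [le_abs_self (κ.k t v w - 1 / (Fintype.card V : ℝ)),
      neg_abs_le (κ.k (t + 1) u w - 1 / (Fintype.card V : ℝ))]
  rw [sum_add_distrib] at g3
  linarith

variable {cp : P → Finset C} {cv : V → Finset C} {q : ℝ} {Pm : Finset C → Prop}

/-- most vertices can be exchanged with every vertex -/
theorem exists_hub [Nonempty V] (h0 : Pm ∅)
    (hu : ∀ U U', Pm U → Pm U' → Disjoint U U' → Pm (U ∪ U'))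
    (hs : ∀ u p v, 0 < κ.c u p v → Pm (cp p ∪ cv v)) (hpv : ∀ p v, Disjoint (cp p) (cv v))
    (hc : ∀ p v, (cp p ∪ cv v).card ≤ 5) (h : κ.Hit cp cv q) (hq : 0 ≤ q) (J a0 T : ℕ)
    (hJ : 1 ≤ J) (ha0 : 1 ≤ a0) (hT : T = 4 ^ J * a0) {lam : ℝ} (hl1 : 1 ≤ lam)
    (hl2 : Real.log (Fintype.card V) ≤ 4 * lam)
    (hl3 : Real.exp lam * (5 * T ^ 2 * J) * q ≤ 1) {ρ : ℝ} (r0 : 0 ≤ ρ) (r1 : ρ ≤ 1)
    (r2 : κ.Contr ρ) (r3 : Fintype.card V * ρ ^ a0 ≤ 1 / 400) :
    ∃ S : V → Prop, ∑ v, nind (S v) ≤ 90 * Fintype.card V / J ∧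
      ∀ u v, S v → ∀ B : Finset C, cv u ⊆ B → cv v ⊆ B →
        T * (B.card + 5 * T) * q ≤ 1 / 10 →
        ∃ W : Finset C, W.card ≤ 10 * T ∧ Disjoint W B ∧ Pm (W ∪ cv u) ∧ Pm (W ∪ cv v) := by
  obtain ⟨a, t, ha, hat, htT, hw1, -⟩ := κ.exists_window a0 J ha0 hJ
  rw [← hT] at htT
  set N : ℝ := (Fintype.card V : ℝ) with hN
  have hN0 : 0 < N := by rw [hN]; exact_mod_cast Fintype.card_pos
  have hJ' : (1 : ℝ) ≤ J := by exact_mod_cast hJ
  have htT' : (t : ℝ) ≤ T := by exact_mod_cast htT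
  have e2 : ∑ x, nind (κ.Spr cp cv t x) ≤ 90 * N / J := by
    have h1 := κ.spr_avg h hq hat (lam := lam) (by linarith)
    rw [← hN] at h1
    have h2 : κ.ent a - κ.ent t ≤ lam * (4 * N / J) := by
      rw [← mul_div_assoc, le_div_iff₀ (by positivity)]
      have h3 := mul_le_mul_of_nonneg_left hl2 hN0.le
      linarith
    have h3 : (t : ℝ) * (N * (Real.exp lam * (5 * t : ℕ) * q)) ≤ lam * (N / J) := by
      have h4 : Real.exp lam * (5 * t ^ 2 * J) * q ≤ 1 := by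
        refine le_trans ?_ hl3
        have := (Real.exp_pos lam).le
        gcongr
      have h5 : (t : ℝ) * (N * (Real.exp lam * (5 * t : ℕ) * q))
          = Real.exp lam * (5 * t ^ 2 * J) * q * (N / J) := by
        push_cast; field_simp
      rw [h5]
      exact mul_le_mul_of_nonneg_right (by linarith) (by positivity)
    refine le_of_mul_le_mul_left (a := lam) ?_ (by linarith)
    have h5 : lam * (90 * N / J) = 10 * (2 * (lam * (4 * N / J)) + lam * (N / J)) := by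
      ring
    linarith
  refine ⟨fun v => κ.Spr cp cv t v, e2, fun u v hv B huB hvB hB => ?_⟩
  have g := κ.tv_small r0 r1 r2 r3 (t := t) (by omega) u
  obtain ⟨l1, l2, f1, f2, f3, f4, f5, f6, f7, f8⟩ := κ.two_walks h hq hc (g u) (g v) hv B hvB
    (le_trans (by gcongr) hB)
  obtain ⟨W, g1, g2⟩ := κ.exchanger h0 hu hs hpv hc (by omega) huB hvB f1 f2 f3 f4 f5 f6 f7 f8
  exact ⟨W, by omega, g2⟩

end Ker

end Pool.Agent.Lib.MP_356f68_co.Cube
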