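import Mathlib
import Pool.Agent.Lib.MP_356f68_co.Gap.Main
import Pool.Agent.Lib.MP_356f68_co.Spec.Mix

/-! With a spectral gap every tuple has absorbers. -/

set_option autoImplicit false
set_option linter.unusedSectionVars false

namespace Pool.Agent.Lib.MP_356f68_co.Cube

open Finset

variable {α : Type} [Fintype α] [DecidableEq α] {E : (Fin 5 → α) → Prop}

/-- the point / block operator contracts functions of sum zero -/
def Gp (E : (Fin 5 → α) → Prop) (θ : ℝ) : Prop :=
  ∀ f : α × α → ℝ, ∑ v, f v = 0 →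
    ∑ p, (∑ v, ind (E (mk p v)) * f v) ^ 2 ≤ θ * (Fintype.card α : ℝ) ^ 3 * ∑ v, f v ^ 2

lemma contr_of_gp [Nonempty α] (hE : Lat E) {θ : ℝ} (h0 : 0 ≤ θ) (h : Gp E θ) :
    (ker hE).Contr (θ ^ 2) := by
  intro f hf
  have hn : (0 : ℝ) < (Fintype.card α : ℝ) ^ 3 := by
    have : (0 : ℝ) < Fintype.card α := by exact_mod_cast Fintype.card_pos
    positivity
  set N : ℝ := (Fintype.card α : ℝ) ^ 3 with hN
  set g : α × α → ℝ := fun u => ∑ v, (ker hE).K u v * f v with hg
  have g0 : ∑ u, g u = 0 := by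
    simp only [hg]
    rw [sum_comm]
    simp only [← sum_mul, Ker.K_col, one_mul, hf]
  have g1 : ∀ u, g u * N = ∑ p, ind (E (mk p u)) * ∑ v, ind (E (mk p v)) * f v := by
    intro u
    simp only [hg, Ker.K, ker, sum_mul, mul_sum, ← hN]
    rw [sum_comm]
    exact sum_congr rfl fun p _ => sum_congr rfl fun v _ => by field_simp
  have g2 : (∑ u, g u ^ 2) * N
      = ∑ p, (∑ u, ind (E (mk p u)) * g u) * ∑ v, ind (E (mk p v)) * f v := by
    have : ∀ u, g u ^ 2 * N = ∑ p, ind (E (mk p u)) * g u * ∑ v, ind (E (mk p v)) * f v := by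
      intro u
      rw [sq, mul_assoc, g1, mul_sum]
      exact sum_congr rfl fun p _ => by ring
    rw [sum_mul, sum_congr rfl fun u _ => this u, sum_comm]
    exact sum_congr rfl fun p _ => by rw [sum_mul]
  have g3 := sum_mul_sq_le_sq_mul_sq univ (fun p => ∑ u, ind (E (mk p u)) * g u)
    (fun p => ∑ v, ind (E (mk p v)) * f v)
  rw [← g2] at g3
  have g4 := h g g0
  have g5 := h f hf
  rw [← hN] at g4 g5
  set G := ∑ u, g u ^ 2 with hG
  set F := ∑ v, f v ^ 2 with hF
  have G0 : 0 ≤ G := sum_nonneg fun _ _ => sq_nonneg _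
  have F0 : 0 ≤ F := sum_nonneg fun _ _ => sq_nonneg _
  have g6 : (G * N) ^ 2 ≤ (θ * N * G) * (θ * N * F) :=
    g3.trans (mul_le_mul g4 g5 (sum_nonneg fun _ _ => sq_nonneg _) (by positivity))
  change G ≤ θ ^ 2 * F
  rcases G0.eq_or_lt with h1 | h1
  · rw [← h1]; positivity
  · refine le_of_mul_le_mul_left (a := G * N ^ 2) ?_ (by positivity)
    calc _ = (G * N) ^ 2 := by ring
      _ ≤ _ := g6
      _ = _ := by ring

/-- absorbers for all tuples -/
def Abs5 (E : (Fin 5 → α) → Prop) (w β : ℕ) : Prop :=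
  ∀ g : Fin 5 → α, ∀ B : Finset (Col α), col g ⊆ B → B.card ≤ β →
    ∃ W : Finset (Col α), W.card ≤ w ∧ Disjoint W B ∧ PM E W ∧ PM E (W ∪ col g)

theorem exists_abs5 (hE : Lat E) (a0 T β : ℕ) (hn : 1600 ≤ Fintype.card α)
    (ha0 : 1 ≤ a0) (hT : T = 4 ^ 200 * a0) (hl3 : (5 * T ^ 2 * 200) ^ 2 ≤ Fintype.card α)
    (hβ : 10 * (T * (β + 4 + 15 * T)) ≤ Fintype.card α) {θ : ℝ} (r0 : 0 ≤ θ) (r1 : θ ≤ 1)
    (r2 : Gp E θ) (r3 : (Fintype.card α : ℝ) ^ 2 * (θ ^ 2) ^ a0 ≤ 1 / 400) :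
    Abs5 E (20 * T + 4) β := by
  have : Nonempty α := Fintype.card_pos_iff.1 (by omega)
  set n := Fintype.card α with hn'
  have hn0 : (1600 : ℝ) ≤ n := by exact_mod_cast hn
  have hT1 : 1 ≤ T := by rw [hT]; exact Nat.mul_pos (by positivity) ha0
  have hc2 : (Fintype.card (α × α) : ℝ) = (n : ℝ) ^ 2 := by
    rw [Fintype.card_prod]; push_cast; ring
  have hcard : Real.log (Fintype.card (α × α)) = 2 * Real.log n := by
    rw [hc2, Real.log_pow]; norm_num
  have hsq : Real.exp (Real.log n / 2) * Real.exp (Real.log n / 2) = n := by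
    rw [← Real.exp_add, add_halves, Real.exp_log (by linarith)]
  obtain ⟨S, hS1, hS2⟩ := (ker hE).exists_hub (Pm := PM E) (cp := cp) (cv := cv) PM.empty
    (fun U U' => PM.union) (fun u p v h => by
      rw [← col_mk]
      refine PM.single (of_ind_pos ?_)
      rcases (ind_nonneg (E (mk p v))).eq_or_lt with h0 | h0
      · simp only [ker, ← h0, mul_zero, zero_div] at h; exact absurd h (lt_irrefl _)
      · exact h0) disj_pv (fun p v => by rw [← col_mk, card_col]) (ker_hit hE) (by positivity)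
    200 a0 T (by omega) ha0 hT (lam := Real.log n / 2) (by
      have h1 : Real.exp 2 ≤ n := by
        have := Real.exp_one_lt_d9
        have h2 : Real.exp 2 = Real.exp 1 * Real.exp 1 := by rw [← Real.exp_add]; norm_num
        nlinarith [Real.exp_pos 1]
      have := (Real.le_log_iff_exp_le (by linarith)).2 h1
      linarith) (by rw [hcard]; linarith) (by
      rw [mul_one_div, div_le_one (by linarith)]
      have h1 : ((5 * T ^ 2 * (200 : ℕ) : ℝ)) ^ 2 ≤ Real.exp (Real.log n / 2) ^ 2 := by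
        rw [sq (Real.exp _), hsq]; exact_mod_cast hl3
      have h3 := (pow_le_pow_iff_left₀ (by positivity) (Real.exp_pos _).le two_ne_zero).1 h1
      exact (mul_le_mul_of_nonneg_left h3 (Real.exp_pos _).le).trans hsq.le)
    (ρ := θ ^ 2) (by positivity) (pow_le_one₀ r0 r1) (contr_of_gp hE r0 r2) (by rw [hc2]; exact r3)
  rw [hc2] at hS1
  obtain ⟨p0, -, hp0⟩ : ∃ p ∈ (univ : Finset (α × α × α)),
      ∑ v, ind (E (mk p v)) * nind (S v) ≤ 9 / 20 * n := by
    apply exists_le_of_sum_le univ_nonempty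
    rw [sum_comm]
    simp only [← sum_mul, deg_v hE, ← mul_sum, sum_const, card_univ, Fintype.card_prod,
      nsmul_eq_mul, ← hn']
    push_cast at hS1 ⊢
    calc _ ≤ (n : ℝ) ^ 2 * (90 * n ^ 2 / 200) := by gcongr
      _ = _ := by ring
  intro g B hB1 hB2
  have hβ' : (10 * (T * (β + 4 + 15 * T)) : ℝ) ≤ n := by exact_mod_cast hβ
  have hB3 : (B.card : ℝ) ≤ β := by exact_mod_cast hB2
  have hT' : (1 : ℝ) ≤ T := by exact_mod_cast hT1
  have hβ0 : (0 : ℝ) ≤ β := Nat.cast_nonneg _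
  have hβ1 : (10 * (β + 4) : ℝ) ≤ n := by nlinarith
  set p : α × α × α := (g 0, g 1, g 2) with hp
  set v : α × α := (g 3, g 4) with hv
  have hg : col g = cp p ∪ cv v := col_eq g
  rw [hg] at hB1 ⊢
  obtain ⟨u, hu1, -, hu3⟩ := exists_nbr hE (fun _ => True) p B (by
    simp only [nind_pos trivial, mul_zero, sum_const_zero]
    linarith)
  have c1 : (B ∪ cv u).card ≤ β + 2 := (card_union_le _ _).trans (Nat.add_le_add hB2 (card_cv u))
  obtain ⟨w, -, hw2, hw3⟩ := exists_nbr hE S p0 (B ∪ cv u) (by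
    have : ((B ∪ cv u).card : ℝ) ≤ β + 2 := by exact_mod_cast c1
    linarith)
  have c2 : (B ∪ cv u ∪ cv w).card ≤ β + 2 + 2 :=
    (card_union_le _ _).trans (Nat.add_le_add c1 (card_cv w))
  have hb : ∀ B' : Finset (Col α), B'.card ≤ β + 4 + 10 * T →
      (T : ℝ) * (B'.card + 5 * T) * (1 / n) ≤ 1 / 10 := by
    intro B' h
    have h1 : (B'.card : ℝ) ≤ β + 4 + 10 * T := by exact_mod_cast h
    rw [mul_one_div, div_le_iff₀ (by linarith)]
    have h2 : (T : ℝ) * (B'.card + 5 * T) ≤ T * (β + 4 + 15 * T) :=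
      mul_le_mul_of_nonneg_left (by linarith) (by linarith)
    linarith
  obtain ⟨W1, a1, a2, a3, a4⟩ := hS2 u w hw2 (B ∪ cv u ∪ cv w)
    (subset_union_right.trans subset_union_left) subset_union_right (hb _ (by omega))
  obtain ⟨W2, b1, b2, b3, b4⟩ := hS2 v w hw2 (B ∪ cv u ∪ cv w ∪ W1)
    ((((subset_union_right.trans hB1).trans subset_union_left).trans subset_union_left).trans
      subset_union_left) (subset_union_right.trans subset_union_left)
    (hb _ ((card_union_le _ _).trans (by omega)))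
  simp only [disjoint_union_right] at a2 b2 hw3
  obtain ⟨⟨a21, a22⟩, a23⟩ := a2
  obtain ⟨⟨⟨b21, b22⟩, b23⟩, b24⟩ := b2
  obtain ⟨hw4, hw5⟩ := hw3
  have sp : cp p ⊆ B := subset_union_left.trans hB1
  have sv : cv v ⊆ B := subset_union_right.trans hB1
  refine ⟨W1 ∪ cv u ∪ (W2 ∪ cv w), ?_, ?_, a3.union b4 ?_, ?_⟩
  · have := card_union_le (W1 ∪ cv u) (W2 ∪ cv w)
    have := card_union_le W1 (cv u)
    have := card_union_le W2 (cv w)
    have := card_cv u
    have := card_cv w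
    omega
  · simp only [disjoint_union_left]
    exact ⟨⟨a21, hu3⟩, b21, hw4⟩
  · simp only [disjoint_union_left, disjoint_union_right]
    exact ⟨⟨b24.symm, b22.symm⟩, a23, hw5.symm⟩
  · have e : W1 ∪ cv u ∪ (W2 ∪ cv w) ∪ (cp p ∪ cv v)
        = W1 ∪ cv w ∪ (W2 ∪ cv v) ∪ (cp p ∪ cv u) := by
      ext c; simp only [mem_union]; tauto
    rw [e]
    refine (a4.union b3 ?_).union (col_mk p u ▸ PM.single hu1) ?_
    · simp only [disjoint_union_left, disjoint_union_right]
      exact ⟨⟨b24.symm, b23.symm⟩, a21.mono_right sv, hw4.mono_right sv⟩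
    · simp only [disjoint_union_left, disjoint_union_right]
      exact ⟨⟨⟨a21.mono_right sp, hw4.mono_right sp⟩, b21.mono_right sp, (disj_pv _ _).symm⟩,
        ⟨a22, hw5⟩, b22, (hu3.mono_right sv).symm⟩

end Pool.Agent.Lib.MP_356f68_co.Cube
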