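import Mathlib
import Pool.Agent.Lib.MP_356f68_co.Spec.Abs
import Pool.Agent.Lib.MP_356f68_co.Spec.Temp

/-! A reservoir through which every vertex can be covered. -/

set_option autoImplicit false
set_option linter.unusedSectionVars false

namespace Pool.Agent.Lib.MP_356f68_co.Cube

open Finset

variable {α : Type} [Fintype α] [DecidableEq α] {E : (Fin 5 → α) → Prop}

/-- the vertices with value in a set chosen for each class -/
def Fl (A : Fin 5 → Finset α) : Finset (Col α) := univ.filter (fun b => b.2 ∈ A b.1)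

lemma mem_Fl {A : Fin 5 → Finset α} {b : Col α} : b ∈ Fl A ↔ b.2 ∈ A b.1 := by simp [Fl]

lemma card_Fl (A : Fin 5 → Finset α) (j : Fin 5) :
    ((Fl A).filter (fun b => b.1 = j)).card = (A j).card := by
  have : (Fl A).filter (fun b => b.1 = j) = ({j} : Finset (Fin 5)) ×ˢ A j := by
    ext ⟨i, a⟩
    simp only [mem_filter, mem_Fl, mem_product, mem_singleton]
    constructor
    · rintro ⟨h, rfl⟩; exact ⟨rfl, h⟩
    · rintro ⟨rfl, h⟩; exact ⟨h, rfl⟩
  rw [this]; simp

lemma bal_Fl (K : Finset α) : Bal (Fl (fun _ => K)) K.card := fun j => card_Fl _ j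

/-- an edge through a vertex with all other values in a given set -/
def Cov (E : (Fin 5 → α) → Prop) (b : Col α) (K : Finset α) : Prop :=
  ∃ g, E g ∧ g b.1 = b.2 ∧ ∀ j, j ≠ b.1 → g j ∈ K

lemma exists_cov [Nonempty α] (hE : Lat E) (b : Col α) (B : Finset α)
    (hB : 500 * B.card ≤ Fintype.card α) : ∃ K : Finset α, K.card ≤ 4 ∧ Disjoint K B ∧ Cov E b K := by
  have hn : (0 : ℝ) < Fintype.card α := by exact_mod_cast Fintype.card_pos
  have h1 := (d2_self hE (R := (Fl (fun _ => B)).erase b) (u := b) (by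
    have g1 := (bal_Fl B).card
    have g2 := card_erase_le (s := Fl (fun _ => B)) (a := b)
    omega) (notMem_erase _ _)).1
  obtain ⟨g, hg, h2⟩ : ∃ g ∈ av E ((Fl (fun _ => B)).erase b), b ∈ col g := by
    by_contra hne
    push Not at hne
    have : d2 E ((Fl (fun _ => B)).erase b) b b = 0 :=
      sum_eq_zero fun g hg => by simp [Pool.Agent.Lib.MP_d738f8_co.chi, hne g hg]
    rw [this] at h1
    have : 0 < (Fintype.card α : ℝ) ^ 3 := by positivity
    linarith
  obtain ⟨h3, h4⟩ := mem_av.1 hg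
  refine ⟨(univ.erase b.1).image g, card_image_le.trans (by simp), ?_, g, h3, mem_col.1 h2,
    fun j hj => mem_image_of_mem _ (mem_erase.2 ⟨hj, mem_univ _⟩)⟩
  rw [disjoint_left]
  intro a ha haB
  obtain ⟨j, hj, rfl⟩ := mem_image.1 ha
  exact disjoint_left.1 h4 ((mem_col (b := (j, g j))).2 rfl) (mem_erase.2
    ⟨fun h => (mem_erase.1 hj).1 (congrArg Prod.fst h), mem_Fl.2 haB⟩)

lemma many_cov [Nonempty α] (hE : Lat E) (G M : ℕ) (hG : 2000 * (G * M) ≤ Fintype.card α)
    (b : Col α) : ∃ K : Fin G × Fin M → Finset α, (∀ e, (K e).card ≤ 4 ∧ Cov E b (K e)) ∧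
      ∀ e e', e ≠ e' → Disjoint (K e) (K e') := by
  obtain ⟨K, h3, h4⟩ := greedy (univ : Finset (Fin G × Fin M)) (fun _ K => Cov E b K) ∅ 4
    (4 * (G * M)) (fun _ _ B _ hB => exists_cov hE b B (by omega)) (by simp)
  exact ⟨K, fun e => ⟨(h3 e (mem_univ _)).1, (h3 e (mem_univ _)).2.2⟩,
    fun e e' => h4 e (mem_univ _) e' (mem_univ _)⟩

/-- the reservoir property -/
def Res5 (E : (Fin 5 → α) → Prop) (J : Finset α) (G : ℕ) : Prop :=
  ∀ (b : Col α) (Us : Finset α), Us.card < G → ∃ K ⊆ J, Disjoint K Us ∧ Cov E b K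

open Pool.Agent.Shared.FunProb in
theorem exists_res5 (hE : Lat E) (G M k l : ℕ) (hk : 1 ≤ k) (hl1 : 1 ≤ l)
    (hkn : k ≤ Fintype.card α) (h5n : 5 ≤ Fintype.card α) (hl : Fintype.card α < 2 ^ l)
    (hM : M = 4 * l * k ^ 4) (hG : 2000 * (G * M) ≤ Fintype.card α) :
    ∃ J : Finset α, k * J.card ≤ Fintype.card α ∧ Res5 E J G := by
  have : Nonempty α := Fintype.card_pos_iff.1 (by omega)
  choose K hK1 hK2 using many_cov hE G M hG
  have : Nonempty (Fin k) := ⟨⟨0, hk⟩⟩
  have hk' : (1 : ℝ) ≤ k := by exact_mod_cast hk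
  have hk1 : 1 / (k : ℝ) ≤ 1 := by rw [div_le_one (by linarith)]; exact hk'
  obtain ⟨φ, hφ⟩ := exists_all_succeed (P := α) (F := Fin k)
    (ρ := Col α × Fin G × Fin k) (ι := Fin M) (fun _ => univ)
    (fun r i φ => ∀ a ∈ K r.1 (r.2.1, i), φ a = r.2.2)
    (fun r i => K r.1 (r.2.1, i)) ((1 / k) ^ 4) M (pow_le_one₀ (by positivity) hk1)
    (by positivity) (fun r i _ f g hfg h a ha => (hfg a ha) ▸ h a ha)
    (fun r i _ j _ hij => hK2 _ _ _ (fun h => hij (Prod.ext_iff.1 h).2))
    (fun r i _ => by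
      rw [pr_forall _ (fun a (φ : α → Fin k) => φ a = r.2.2) (fun a => {a})
        (fun a _ f g hfg h => (hfg a (mem_singleton_self a)).symm.trans h)
        (fun a _ b _ hab => disjoint_singleton.2 hab)]
      simp only [pr_coord, prod_const, Fintype.card_fin]
      exact pow_le_pow_of_le_one (by positivity) hk1 (hK1 _ _).1)
    (by simp) (by
      set n := Fintype.card α with hn
      have hM1 : 1 ≤ M := by rw [hM]; exact Nat.mul_pos (by omega) (by positivity)
      have hGn : G ≤ n := by nlinarith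
      have h1 : Fintype.card (Col α × Fin G × Fin k) ≤ n ^ 4 := by
        simp only [Fintype.card_prod, Fintype.card_fin, ← hn]
        calc _ ≤ n * n * (n * n) := by gcongr
          _ = n ^ 4 := by ring
      have h2 : (1 - (1 / k : ℝ) ^ 4) ^ M ≤ Real.exp (-(1 / k : ℝ) ^ 4) ^ M :=
        pow_le_pow_left₀ (by linarith [pow_le_one₀ (n := 4) (by positivity) hk1])
          (by linarith [Real.add_one_le_exp (-(1 / k : ℝ) ^ 4)]) M
      have h3 : Real.exp (-(1 / k : ℝ) ^ 4) ^ M = (Real.exp 1 ^ (4 * l))⁻¹ := by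
        rw [← Real.exp_nat_mul, ← Real.exp_nat_mul, ← Real.exp_neg, hM]
        congr 1; push_cast; field_simp
      have h4 : ((n : ℝ)) ^ 4 < Real.exp 1 ^ (4 * l) := by
        rw [mul_comm, pow_mul]
        refine pow_lt_pow_left₀ ?_ (by positivity) (by norm_num)
        calc (n : ℝ) < 2 ^ l := by exact_mod_cast hl
          _ ≤ _ := pow_le_pow_left₀ (by norm_num) (by linarith [Real.add_one_le_exp 1]) l
      have h5 : (Fintype.card (Col α × Fin G × Fin k) : ℝ) ≤ n ^ 4 := by exact_mod_cast h1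
      rw [h3] at h2
      calc _ ≤ (n : ℝ) ^ 4 * (Real.exp 1 ^ (4 * l))⁻¹ :=
            mul_le_mul h5 h2
              (pow_nonneg (by linarith [pow_le_one₀ (n := 4) (by positivity) hk1]) _)
              (by positivity)
        _ < 1 := by rw [← div_eq_mul_inv, div_lt_one (by positivity)]; exact h4)
  obtain ⟨c, -, hc⟩ : ∃ c ∈ (univ : Finset (Fin k)),
      k * (univ.filter (fun a => φ a = c)).card ≤ Fintype.card α := by
    apply exists_le_of_sum_le univ_nonempty
    rw [← mul_sum, ← card_eq_sum_card_fiberwise (fun _ _ => mem_univ _)]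
    simp
  refine ⟨_, hc, fun b Us hUs => ?_⟩
  choose i _ hi using fun g : Fin G => hφ (b, g, c)
  by_contra hne
  push Not at hne
  have h1 : ∀ g : Fin G, ∃ a, a ∈ K b (g, i g) ∧ a ∈ Us := by
    intro g
    by_contra h
    push Not at h
    exact hne _ (fun a ha => mem_filter.2 ⟨mem_univ _, hi g a ha⟩) (disjoint_left.2 h)
      (hK1 _ _).2
  choose a ha1 ha2 using h1
  have h2 := card_le_card_of_injOn (s := univ) a (fun g _ => ha2 g) (fun g _ g' _ h => by
    by_contra hg
    exact disjoint_left.1 (hK2 b (g, i g) (g', i g') fun h => hg (Prod.ext_iff.1 h).1) (ha1 g)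
      (h ▸ ha1 g'))
  simp at h2
  omega

theorem cover5 {J : Finset α} {G : ℕ} (hJ : Res5 E J G) (L : Finset (Col α))
    (hL : 4 * L.card < G) (hd : Disjoint L (Fl (fun _ => J))) :
    ∃ Z ⊆ Fl (fun _ => J), PM E (L ∪ Z) := by
  obtain ⟨W, w1, w2⟩ := greedy L (fun b W => W ⊆ Fl (fun _ => J) ∧ PM E (insert b W)) ∅ 4
    (4 * L.card) (by
      intro b _ B _ hB
      obtain ⟨K, k1, k2, g, g1, g2, g3⟩ := hJ b (B.image Prod.snd)
        (card_image_le.trans_lt (by omega))
      have hb : b ∈ col g := mem_col.2 g2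
      have h1 : ∀ c ∈ (col g).erase b, c.2 ∈ K := by
        intro c hc
        obtain ⟨h2, h3⟩ := mem_erase.1 hc
        rw [← mem_col.1 h3]
        exact g3 _ fun h => h2 (Prod.ext h (by rw [← mem_col.1 h3, h, g2]))
      refine ⟨(col g).erase b, by rw [card_erase_of_mem hb, card_col], disjoint_left.2
        fun c hc hcB => disjoint_left.1 k2 (h1 c hc) (mem_image_of_mem _ hcB),
        fun c hc => mem_Fl.2 (k1 (h1 c hc)), ?_⟩
      rw [insert_erase hb]
      exact PM.single g1) (by simp)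
  refine ⟨L.biUnion W, biUnion_subset.2 fun b hb => (w1 b hb).2.2.1, ?_⟩
  have e : L ∪ L.biUnion W = L.biUnion (fun b => insert b (W b)) := by
    ext c
    simp only [mem_union, mem_biUnion, mem_insert]
    constructor
    · rintro (h | ⟨b, h1, h2⟩)
      · exact ⟨c, h, Or.inl rfl⟩
      · exact ⟨b, h1, Or.inr h2⟩
    · rintro ⟨b, h1, rfl | h2⟩
      · exact Or.inl h1
      · exact Or.inr ⟨b, h1, h2⟩
  rw [e]
  refine PM.biUnion _ _ (fun b hb => (w1 b hb).2.2.2) fun b hb b' hb' hne => ?_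
  have h1 : ∀ c ∈ L, ∀ c' ∈ L, c ∉ W c' := fun c hc c' hc' h =>
    disjoint_left.1 hd hc ((w1 c' hc').2.2.1 h)
  rw [disjoint_insert_left, disjoint_insert_right, mem_insert, not_or]
  exact ⟨⟨hne, h1 b hb b' hb'⟩, h1 b' hb' b hb, w2 b hb b' hb' hne⟩

end Pool.Agent.Lib.MP_356f68_co.Cube
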