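import Mathlib
import Pool.Agent.Lib.MP_356f68_co.Spec.Res

/-! A perfect matching under a spectral gap. -/

set_option autoImplicit false
set_option linter.unusedSectionVars false

namespace Pool.Agent.Lib.MP_356f68_co.Cube

open Finset

variable {α : Type} [Fintype α] [DecidableEq α] {E : (Fin 5 → α) → Prop}

lemma absorb5 {F Mt : Finset (Fin 5 → α)} {W : (Fin 5 → α) → Finset (Col α)} {B0 : Finset (Col α)}
    (hM : Mt ⊆ F) (h0 : ∀ g ∈ F, col g ⊆ B0)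
    (h1 : ∀ g ∈ F, Disjoint (W g) B0 ∧ PM E (W g) ∧ PM E (W g ∪ col g))
    (h2 : ∀ g ∈ F, ∀ g' ∈ F, g ≠ g' → Disjoint (W g) (W g'))
    (h3 : ∀ g ∈ Mt, ∀ g' ∈ Mt, g ≠ g' → Disjoint (col g) (col g')) :
    PM E (F.biUnion W ∪ Mt.biUnion col) := by
  have h4 : ∀ g ∈ F, ∀ g' ∈ F, Disjoint (W g) (col g') := fun g hg g' hg' =>
    (h1 g hg).1.mono_right (h0 g' hg')
  have e : F.biUnion W ∪ Mt.biUnion col
      = (F \ Mt).biUnion W ∪ Mt.biUnion (fun g => W g ∪ col g) := by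
    rw [biUnion_union, ← union_assoc ((F \ Mt).biUnion W), ← union_biUnion,
      sdiff_union_of_subset hM]
  rw [e]
  refine (PM.biUnion _ _ (fun g hg => (h1 g (mem_sdiff.1 hg).1).2.1)
    fun g hg g' hg' => h2 g (mem_sdiff.1 hg).1 g' (mem_sdiff.1 hg').1).union
    (PM.biUnion _ _ (fun g hg => (h1 g (hM hg)).2.2) fun g hg g' hg' hne => ?_) ?_
  · exact disjoint_union_left.2 ⟨disjoint_union_right.2 ⟨h2 g (hM hg) g' (hM hg') hne,
      h4 g (hM hg) g' (hM hg')⟩, disjoint_union_right.2 ⟨(h4 g' (hM hg') g (hM hg)).symm,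
      h3 g hg g' hg' hne⟩⟩
  · rw [disjoint_biUnion_left]
    intro g hg
    rw [disjoint_biUnion_right]
    intro g' hg'
    exact disjoint_union_right.2 ⟨h2 g (mem_sdiff.1 hg).1 g' (hM hg')
      (fun h => (mem_sdiff.1 hg).2 (h ▸ hg')), h4 g (mem_sdiff.1 hg).1 g' (hM hg')⟩

/-- a sparse family of tuples with perfect matchings after deleting balanced parts -/
theorem template5 [Nonempty α] (J : Finset α) (L : ℕ) (hL : 1 ≤ L) (hJ : J.card ≤ 2 ^ L)
    (hm : 2 * L * J.card ≤ Fintype.card α) :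
    ∃ (Nd : Finset α) (F : Finset (Fin 5 → α)), J ⊆ Nd ∧ Nd.card ≤ 2 * L * J.card ∧
      F.card ≤ 2048 * L * J.card ∧ (∀ g ∈ F, col g ⊆ Fl (fun _ => Nd)) ∧
      ∀ A : Fin 5 → Finset α, (∀ j, A j ⊆ J) → (∀ j, (A 0).card = (A j).card) →
        ∃ Mt ⊆ F, Mt.biUnion col = Fl (fun j => Nd \ A j) ∧
          ∀ g ∈ Mt, ∀ g' ∈ Mt, g ≠ g' → Disjoint (col g) (col g') := by
  obtain ⟨Nd, tg, t1, t2, t3, t4⟩ := templateC J L hL hJ hm
  set ch : α → Fin 5 → Finset α := fun a j => if j = 0 then {a} else tg a with hch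
  refine ⟨Nd, Nd.biUnion (fun a => Fintype.piFinset (ch a)), t1, t2, ?_, ?_, fun A hA hc => ?_⟩
  · refine (card_biUnion_le_card_mul _ _ 1024 fun a _ => ?_).trans (by nlinarith)
    rw [Fintype.card_piFinset]
    refine (prod_le_pow_card _ _ 4 fun j _ => ?_).trans (by simp)
    simp only [hch]
    split_ifs
    · simp
    · exact (t3 a).1
  · intro g hg b hb
    obtain ⟨a, ha, h1⟩ := mem_biUnion.1 hg
    have h2 := Fintype.mem_piFinset.1 h1 b.1
    rw [mem_col.1 hb] at h2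
    simp only [hch] at h2
    rw [mem_Fl]
    split_ifs at h2
    · rw [mem_singleton.1 h2]; exact ha
    · exact (t3 a).2 h2
  have h1 : ∀ j, ∃ σ : α → α, (∀ a ∈ Nd \ A 0, σ a ∈ ch a j) ∧
      Set.InjOn σ (Nd \ A 0 : Finset α) ∧ (Nd \ A 0).image σ = Nd \ A j := by
    intro j
    by_cases hj : j = 0
    · subst hj
      exact ⟨id, fun a _ => by simp [hch], Set.injOn_id _, image_id⟩
    · simp only [hch, if_neg hj]
      exact t4 _ (hA 0) _ (hA j) (hc j)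
  choose σ s1 s2 s3 using h1
  refine ⟨(Nd \ A 0).image (fun a j => σ j a), fun g hg => ?_, ?_, fun g hg g' hg' hne => ?_⟩
  · obtain ⟨a, ha, rfl⟩ := mem_image.1 hg
    exact mem_biUnion.2 ⟨a, (mem_sdiff.1 ha).1, Fintype.mem_piFinset.2 fun j => s1 j a ha⟩
  · ext b
    rw [image_biUnion, mem_biUnion, mem_Fl, ← s3 b.1, mem_image]
    simp only [mem_col]
  · obtain ⟨a, ha, rfl⟩ := mem_image.1 hg
    obtain ⟨a', ha', rfl⟩ := mem_image.1 hg'
    exact disjoint_col.2 fun j h => hne (s2 j ha ha' h ▸ rfl)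

theorem assemble5 [Nonempty α] (hE : Lat E) {w β G L X : ℕ} (hA : Abs5 E w β)
    {J : Finset α} (hJ : Res5 E J G) (hL : 1 ≤ L) (h1 : J.card ≤ 2 ^ L)
    (h2 : 2 * L * J.card ≤ Fintype.card α)
    (h3 : 5 * (2 * L * J.card) + w * (2048 * L * J.card) ≤ β)
    (h4 : 100 * β ≤ Fintype.card α) (hX : 1 ≤ X) (h5 : 10 ^ 17 * X ^ 15 ≤ Fintype.card α)
    (h6 : ∀ r, r * X ≤ 6 * Fintype.card α → 20 * r < G) : PM E univ := by
  obtain ⟨Nd, F, t1, t2, t3, t4, t5⟩ := template5 J L hL h1 h2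
  have c1 := (bal_Fl Nd).card
  have c2 : w * F.card ≤ w * (2048 * L * J.card) := Nat.mul_le_mul_left _ t3
  obtain ⟨W, w1, w2⟩ := greedy F (fun g W => PM E W ∧ PM E (W ∪ col g)) (Fl (fun _ => Nd)) w β
    (fun g hg B hB1 hB2 => hA g B ((t4 g hg).trans hB1) hB2) (by omega)
  have d1 : Disjoint (F.biUnion W) (Fl (fun _ => Nd)) :=
    (disjoint_biUnion_left _ _ _).2 fun e he => (w1 e he).2.1
  obtain ⟨k1, g1⟩ := (PM.biUnion F W (fun e he => (w1 e he).2.2.1) w2).bal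
  have hk := g1.union (bal_Fl Nd) d1
  set R := F.biUnion W ∪ Fl (fun _ => Nd) with hR
  obtain ⟨Y, y1, r, y2, y3, y4⟩ := almost hE (R := R) (by
    have g1 := card_biUnion_le_card_mul F W w (fun e he => (w1 e he).1)
    have g2 := card_union_le (F.biUnion W) (Fl (fun _ => Nd))
    rw [mul_comm] at g1
    rw [← hR] at g2
    omega) hk X hX h5
  set Lf := (univ \ R) \ Y with hLf
  have d2 : Disjoint Lf R := sdiff_disjoint.mono_left sdiff_subset
  have sJ : Fl (fun _ => J) ⊆ Fl (fun _ => Nd) := fun b hb => mem_Fl.2 (t1 (mem_Fl.1 hb))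
  have r1 : Fl (fun _ => Nd) ⊆ R := subset_union_right
  obtain ⟨Z, z1, z2⟩ := cover5 hJ Lf (by have := h6 _ y4; have := y3.card; omega)
    (d2.mono_right (sJ.trans r1))
  set A : Fin 5 → Finset α := fun j => univ.filter (fun a => (j, a) ∈ Z) with hA'
  have z3 : Fl A = Z := by ext b; simp [mem_Fl, hA']
  have z4 : Disjoint Lf Z := d2.mono_right ((z1.trans sJ).trans r1)
  obtain ⟨Mt, m1, m2, m3⟩ := t5 A (fun j a ha => mem_Fl.1 (z1 (mem_filter.1 ha).2)) (by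
    obtain ⟨k, hk⟩ := z2.bal
    have h7 : ∀ j, r + (A j).card = k := by
      intro j
      rw [← hk j, filter_union, card_union_of_disjoint (disjoint_filter_filter z4), y3 j, ← z3,
        card_Fl]
    intro j
    have := h7 0
    have := h7 j
    omega)
  have pp := absorb5 m1 t4 (fun g hg => (w1 g hg).2) w2 m3
  rw [m2] at pp
  have s3 : Fl (fun j => Nd \ A j) ⊆ Fl (fun _ => Nd) := fun b hb =>
    mem_Fl.2 (mem_sdiff.1 (mem_Fl.1 hb)).1
  have s2 : F.biUnion W ∪ Fl (fun j => Nd \ A j) ⊆ R := union_subset_union_right s3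
  have d3 : Disjoint Y R := sdiff_disjoint.mono_left y1
  have d4 : Disjoint Z (Fl (fun j => Nd \ A j)) := by
    rw [← z3, disjoint_left]
    exact fun b h h' => (mem_sdiff.1 (mem_Fl.1 h')).2 (mem_Fl.1 h)
  have fin := y2.union (z2.union pp (disjoint_union_left.2 ⟨d2.mono_right s2,
    disjoint_union_right.2 ⟨(d1.mono_right (z1.trans sJ)).symm, d4⟩⟩)) (disjoint_union_right.2
    ⟨disjoint_union_right.2 ⟨disjoint_sdiff, d3.mono_right ((z1.trans sJ).trans r1)⟩,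
      d3.mono_right s2⟩)
  convert fin using 1
  symm
  rw [eq_univ_iff_forall]
  intro b
  simp only [mem_union, mem_sdiff, hLf, hR, mem_univ, true_and, mem_Fl, hA', mem_filter]
  tauto

theorem full_gap (e : ℕ) : ∃ n0 : ℕ, ∀ (α : Type) [Fintype α] [DecidableEq α],
    n0 ≤ Fintype.card α → ∀ E : (Fin 5 → α) → Prop, Lat E → ∀ D : ℕ, 1 ≤ D →
      D ^ 125 ≤ e * Fintype.card α → Gp E (1 - 1 / D) → PM E univ := by
  obtain ⟨c, hc⟩ : ∃ c : ℕ, c = 4 ^ 200 := ⟨_, rfl⟩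
  have hc1 : 1 ≤ c := hc ▸ Nat.one_le_pow _ _ (by norm_num)
  obtain ⟨K0, hK0⟩ : ∃ K0 : ℕ, K0 = 480000 * 4 * (10 ^ 6) ^ 4 * (6 * c) ^ 8 := ⟨_, rfl⟩
  obtain ⟨C1, hC1⟩ : ∃ C1 : ℕ, C1 = 10 ^ 17 * K0 ^ 15 := ⟨_, rfl⟩
  obtain ⟨n0, hn0⟩ := polylog (C1 ^ 25 * e ^ 24) (195 * 25)
  refine ⟨n0, fun α _ _ hn E hE D hD hDn hgp => ?_⟩
  have h0 := hn0 _ hn
  set n := Fintype.card α with hn'
  obtain ⟨l, hl⟩ : ∃ l, l = Nat.log 2 n + 1 := ⟨_, rfl⟩
  have hl1 : 1 ≤ l := by omega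
  have hl2 : n < 2 ^ l := hl ▸ Nat.lt_pow_succ_log_self (by norm_num) n
  obtain ⟨a0, ha⟩ : ∃ a0, a0 = 6 * D * l := ⟨_, rfl⟩
  obtain ⟨t, ht⟩ : ∃ t, t = c * a0 := ⟨_, rfl⟩
  obtain ⟨k, hk⟩ : ∃ k, k = 10 ^ 6 * l * t ^ 2 := ⟨_, rfl⟩
  obtain ⟨M, hM⟩ : ∃ M, M = 4 * l * k ^ 4 := ⟨_, rfl⟩
  have h1 : 10 ^ 17 * (480000 * M) ^ 15 ≤ n := by
    have g1 : 480000 * M = K0 * l ^ 13 * D ^ 8 := by rw [hM, hk, ht, ha, hK0]; ring
    have g2 : 10 ^ 17 * (480000 * M) ^ 15 = C1 * l ^ 195 * D ^ 120 := by rw [g1, hC1]; ring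
    rw [g2, ← Nat.pow_le_pow_iff_left (n := 25) (by norm_num)]
    rw [← hl] at h0
    calc (C1 * l ^ 195 * D ^ 120) ^ 25 = C1 ^ 25 * l ^ (195 * 25) * (D ^ 125) ^ 24 := by
          rw [mul_pow, mul_pow, ← pow_mul, ← pow_mul, ← pow_mul]
      _ ≤ C1 ^ 25 * l ^ (195 * 25) * (e * n) ^ 24 := by gcongr
      _ = C1 ^ 25 * e ^ 24 * l ^ (195 * 25) * n ^ 24 := by
          rw [mul_pow, ← mul_assoc, mul_right_comm (C1 ^ 25)]
      _ ≤ n * n ^ 24 := Nat.mul_le_mul_right _ h0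
      _ = n ^ 25 := by ring
  clear h0 hn0 hC1 hK0
  have ha1 : 6 ≤ a0 := by rw [ha]; nlinarith
  have ht2 : 6 ≤ t := by rw [ht]; nlinarith
  have ht3 : t ≤ t ^ 2 := Nat.le_self_pow (by norm_num) t
  have hk1 : 10 ^ 6 * t ^ 2 ≤ k := by rw [hk]; gcongr; exact Nat.le_mul_of_pos_right _ hl1
  have hk2 : 2 * l ≤ k := by rw [hk]; nlinarith
  have hM1 : k ^ 4 ≤ M := hM ▸ Nat.le_mul_of_pos_left _ (by omega)
  have hk3 : k ≤ k ^ 4 := Nat.le_self_pow (by norm_num) _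
  have hM2 : 480000 * M ≤ n := by
    have := Nat.le_self_pow (n := 15) (by norm_num) (480000 * M)
    omega
  have : Nonempty α := Fintype.card_pos_iff.1 (by omega)
  have hβ : n / (20 * t) * (20 * t) ≤ n := Nat.div_mul_le_self _ _
  have hD' : (1 : ℝ) ≤ D := by exact_mod_cast hD
  have r0 : (0 : ℝ) ≤ 1 - 1 / D := by
    rw [sub_nonneg, div_le_one (by linarith)]; exact hD'
  have hA := exists_abs5 hE a0 t (n / (20 * t)) (by omega) (by omega) (by rw [ht, hc]) (by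
      calc (5 * t ^ 2 * 200) ^ 2 ≤ k ^ 2 := Nat.pow_le_pow_left (by omega) _
        _ ≤ k ^ 4 := Nat.pow_le_pow_right (by omega) (by norm_num)
        _ ≤ n := by omega) (by nlinarith) r0 (by
      have : (0 : ℝ) ≤ 1 / D := by positivity
      linarith) hgp (by
      rw [← pow_mul, mul_comm 2, pow_mul, ← mul_pow, ← hn']
      have g1 : (1 - 1 / D : ℝ) ^ a0 ≤ Real.exp (-(1 / D)) ^ a0 :=
        pow_le_pow_left₀ r0 (by linarith [Real.add_one_le_exp (-(1 / D : ℝ))]) _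
      have g2 : Real.exp (-(1 / D)) ^ a0 = (Real.exp 1 ^ (6 * l))⁻¹ := by
        rw [← Real.exp_nat_mul, ← Real.exp_nat_mul, ← Real.exp_neg, ha]
        congr 1; push_cast; field_simp
      have g3 : (n : ℝ) * 20 ≤ Real.exp 1 ^ (6 * l) := by
        calc (n : ℝ) * 20 ≤ 2 ^ l * 2 ^ 5 := by
              have : (n : ℝ) ≤ 2 ^ l := by exact_mod_cast hl2.le
              gcongr; norm_num
          _ = 2 ^ (l + 5) := by rw [pow_add]
          _ ≤ 2 ^ (6 * l) := pow_le_pow_right₀ (by norm_num) (by omega)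
          _ ≤ _ := pow_le_pow_left₀ (by norm_num) (by linarith [Real.add_one_le_exp 1]) _
      have g4 : (n : ℝ) * (1 - 1 / D) ^ a0 ≤ 1 / 20 := by
        refine (mul_le_mul_of_nonneg_left (g1.trans g2.le) (Nat.cast_nonneg _)).trans ?_
        rw [← div_eq_mul_inv, div_le_div_iff₀ (by positivity) (by norm_num), one_mul]
        exact g3
      calc _ ≤ (1 / 20 : ℝ) ^ 2 := pow_le_pow_left₀ (by positivity) g4 _
        _ = _ := by norm_num)
  have hG : n / (2000 * M) * (2000 * M) ≤ n := Nat.div_mul_le_self _ _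
  obtain ⟨S, hS1, hS2⟩ := exists_res5 hE (n / (2000 * M)) M k l (by omega) hl1 (by omega)
    (by omega) hl2 hM (by nlinarith)
  refine assemble5 hE hA hS2 hl1 ?_ ?_ ?_ (by nlinarith) (X := 480000 * M) (by omega) h1 ?_
  · have := card_le_univ S
    omega
  · exact (Nat.mul_le_mul_right _ hk2).trans hS1
  · rw [Nat.le_div_iff_mul_le (by omega)]
    refine le_trans ?_ hS1
    rw [hk]
    have : 8202 + 40960 * t ≤ 50000 * t := by omega
    calc _ = (8202 + 40960 * t) * (20 * t * l * S.card) := by ring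
      _ ≤ 50000 * t * (20 * t * l * S.card) := Nat.mul_le_mul_right _ this
      _ = _ := by ring
  · intro r hr
    rw [Nat.lt_iff_add_one_le, Nat.le_div_iff_mul_le (by omega)]
    nlinarith

lemma PM.full {E : (Fin 5 → α) → Prop} (h : PM E univ) :
    ∃ T : α → Fin 5 → α, (∀ i, E (T i) ∧ T i 0 = i) ∧
      ∀ j, Function.Injective (fun i => T i j) := by
  obtain ⟨M, h1, h2, h3⟩ := h
  have h7 : ∀ i, ∃ g ∈ M, g 0 = i := by
    intro i
    obtain ⟨g, hg, e⟩ := mem_biUnion.1 (h3 ▸ mem_univ ((0, i) : Col α) : (0, i) ∈ M.biUnion col)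
    exact ⟨g, hg, mem_col.1 e⟩
  choose T t1 t2 using h7
  refine ⟨T, fun i => ⟨h1 _ (t1 i), t2 i⟩, fun j i i' h => ?_⟩
  by_contra hne
  exact disjoint_col.1 (h2 (t1 i) (t1 i') fun e => hne (by rw [← t2 i, e, t2 i'])) j h

end Pool.Agent.Lib.MP_356f68_co.Cube
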